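import Pool.Agent.Run7.h970.LiftMain

set_option autoImplicit false

/-!
# Degenerate graphs for which the crosscut formula fails
-/

namespace Pool.Agent.Results.MP_5176ab_co.CrosscutFails

open Filter Topology

/-- For every `r ≥ 3` there is a finite `(r - 1)`-degenerate graph `G` with
`ex_r(n, G⁺) ≥ n ^ (r - 1 + ε)` for large `n`; so `ex_r(n, G⁺)` is not asymptotic to any constant
times `n.choose (r - 1)`. -/
theorem result : ∃ ε : ℝ, 0 < ε ∧ ∀ r : ℕ, 3 ≤ r →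
    ∃ (V : Type) (_ : Finite V) (G : SimpleGraph V), Run7.h970.Degen (r - 1) G ∧
      (∀ᶠ n : ℕ in atTop, (n : ℝ) ^ ((r : ℝ) - 1 + ε) ≤ (Run7.h970.exR r G n : ℝ)) ∧
      ∀ c : ℝ, ¬ Tendsto (fun n : ℕ =>
        (Run7.h970.exR r G n : ℝ) / (c * (n.choose (r - 1) : ℝ))) atTop (𝓝 1) := by
  refine ⟨1 / 200000, by norm_num, fun r hr => ?_⟩
  obtain ⟨k, rfl⟩ : ∃ k, r = k + 3 := ⟨r - 3, by omega⟩
  obtain ⟨V, hV, G, hG, h⟩ := Run7.h970.power_gap k
  have e : ((k + 3 : ℕ) : ℝ) - 1 + 1 / 200000 = (k : ℝ) + 2 + 1 / 200000 := by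
    push_cast
    ring
  refine ⟨V, hV, G, hG, by rw [e]; exact h, ?_⟩
  intro c hc
  have hpow : Tendsto (fun n : ℕ => (n : ℝ) ^ ((1 : ℝ) / 200000)) atTop atTop :=
    (tendsto_rpow_atTop (by norm_num)).comp tendsto_natCast_atTop_atTop
  -- eventually the quotient is below 2
  have h2 := hc.eventually (gt_mem_nhds (show (1 : ℝ) < 2 by norm_num))
  have h3 := hc.eventually (lt_mem_nhds (show (0 : ℝ) < 1 by norm_num))
  obtain ⟨n, hn1, hn2, hn3, hn4, hn5⟩ := (h.and (h2.and (h3.and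
    ((hpow.eventually_gt_atTop (2 * |c|)).and (eventually_gt_atTop 0))))).exists
  have hnpos : (0 : ℝ) < n := by exact_mod_cast hn5
  have e2 : (n : ℝ) ^ ((k : ℝ) + 2 + 1 / 200000)
      = (n : ℝ) ^ (k + 2) * (n : ℝ) ^ ((1 : ℝ) / 200000) := by
    rw [← Real.rpow_natCast (n : ℝ) (k + 2), ← Real.rpow_add hnpos]
    congr 1
    push_cast
    ring
  have hchoose : (n.choose (k + 3 - 1) : ℝ) ≤ (n : ℝ) ^ (k + 2) := by
    have : k + 3 - 1 = k + 2 := by omega
    rw [this]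
    exact_mod_cast Nat.choose_le_pow n (k + 2)
  have hden : 0 < c * (n.choose (k + 3 - 1) : ℝ) := by
    rcases lt_trichotomy (c * (n.choose (k + 3 - 1) : ℝ)) 0 with h | h | h
    · have : (Run7.h970.exR (k + 3) G n : ℝ) / (c * (n.choose (k + 3 - 1) : ℝ)) ≤ 0 :=
        div_nonpos_of_nonneg_of_nonpos (Nat.cast_nonneg _) h.le
      linarith
    · rw [h, div_zero] at hn3
      exact absurd hn3 (lt_irrefl _)
    · exact h
  rw [div_lt_iff₀ hden] at hn2
  have h5 : c * (n.choose (k + 3 - 1) : ℝ) ≤ |c| * (n : ℝ) ^ (k + 2) :=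
    mul_le_mul (le_abs_self c) hchoose (by positivity) (abs_nonneg c)
  have h6 : (n : ℝ) ^ (k + 2) * (n : ℝ) ^ ((1 : ℝ) / 200000)
      < (n : ℝ) ^ (k + 2) * (2 * |c|) := by
    rw [e2] at hn1
    linarith
  have h7 := lt_of_mul_lt_mul_left h6 (by positivity)
  linarith

end Pool.Agent.Results.MP_5176ab_co.CrosscutFails
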